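import Mathlib
import Pool.Agent.Y820.LB.Pairs

/-!
# The height of a pair and the Mahler measures of its combinations
-/

set_option autoImplicit false

namespace Pool.Agent.Q188.VG

open Polynomial MeasureTheory Filter
open Pool.Agent.H261R2.CM (toC ez ev1 m1 mx1 D_circleAverage D_norm_ez mx1_intervalIntegrable
  D_intervalIntegrable_log D_ae_ne D_log_m1 D_toC_ne)
open Pool.Agent.W242.IM (ae_eval_ne)
open Pool.Agent.Y820.LB

/-- the inner average -/
theorem inner_avg (P Q : ℂ[X]) (hP : P ≠ 0) (a : ℂ) (ha : ‖a‖ = 1) (h0 : P + C (-a⁻¹) * Q ≠ 0) :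
    Real.circleAverage (fun z => Real.log ‖Q.eval z / P.eval z - a‖) 0 1 =
      Real.log (P + C (-a⁻¹) * Q).mahlerMeasure - Real.log P.mahlerMeasure := by
  have ha0 : a ≠ 0 := by
    rintro rfl
    simp at ha
  rw [D_circleAverage (fun z => Real.log ‖Q.eval z / P.eval z - a‖), log_mahler, log_mahler,
    ← intervalIntegral.integral_sub (integrable_log _) (integrable_log _)]
  refine intervalIntegral.integral_congr_ae ?_
  filter_upwards [ae_eval_ne P hP, ae_eval_ne _ h0] with t h1 h2 _
  have h3 : Q.eval (ez t) / P.eval (ez t) - a = -a * ((P + C (-a⁻¹) * Q).eval (ez t)) / P.eval (ez t) := by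
    rw [eval_add, eval_mul, eval_C]
    field_simp
    ring
  rw [h3, norm_div, norm_mul, norm_neg, ha, one_mul, Real.log_div (norm_ne_zero_iff.mpr h2)
    (norm_ne_zero_iff.mpr h1)]

theorem mx1_le_of_pencil (P Q : ℤ[X]) (hP : P ≠ 0) (K : ℝ)
    (h0 : ∀ u : ℂ, ‖u‖ = 1 → toC P + C u * toC Q ≠ 0)
    (h : ∀ u : ℂ, ‖u‖ = 1 → Real.log (toC P + C u * toC Q).mahlerMeasure ≤ K) : mx1 P Q ≤ K := by
  have hP' : toC P ≠ 0 := D_toC_ne P hP
  set f : ℂ → ℂ := fun z => (toC Q).eval z / (toC P).eval z with hf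
  have hmer : Meromorphic f := by
    intro z
    have h1 : ∀ R : ℂ[X], MeromorphicAt (fun z => R.eval z) z := fun R =>
      (AnalyticAt.aeval_polynomial (analyticAt_id) R).meromorphicAt
    exact (h1 (toC Q)).div (h1 (toC P))
  have h1 := congrFun (ValueDistribution.circleAverage_circleAverage_eq_proximity_top hmer) 1
  rw [ValueDistribution.proximity_top] at h1
  have h2 : Real.circleAverage (fun a => Real.circleAverage (fun z => Real.log ‖f z - a‖) 0 1) 0 1 ≤
      K - Real.log (m1 P) := by
    refine Real.circleAverage_mono_on_of_le_circle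
      (ValueDistribution.circleIntegrable_circleAverage_log_norm_sub hmer) ?_
    intro a ha
    have ha1 : ‖a‖ = 1 := by simpa using ha
    have hu : ‖-a⁻¹‖ = 1 := by rw [norm_neg, norm_inv, ha1, inv_one]
    have := inner_avg (toC P) (toC Q) hP' a ha1 (h0 _ hu)
    rw [hf]
    rw [this]
    have h3 := h _ hu
    unfold m1
    linarith
  have h3 : mx1 P Q = Real.log (m1 P) + Real.circleAverage (fun z => Real.posLog ‖f z‖) 0 1 := by
    rw [D_circleAverage (fun z => Real.posLog ‖f z‖)]
    have hint := mx1_intervalIntegrable P Q hP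
    have hint2 := D_intervalIntegrable_log P
    have e1 : ∫ t in (0:ℝ)..1, Real.posLog ‖f (ez t)‖ =
        ∫ t in (0:ℝ)..1, (Real.log (max ‖ev1 P t‖ ‖ev1 Q t‖) - Real.log ‖ev1 P t‖) := by
      refine intervalIntegral.integral_congr_ae ?_
      filter_upwards [D_ae_ne P hP] with t h4 _
      have h5 : 0 < ‖ev1 P t‖ := norm_pos_iff.mpr h4
      have h6 : f (ez t) = ev1 Q t / ev1 P t := rfl
      rw [Real.posLog_eq_log_max_one (norm_nonneg _), h6, norm_div, ← Real.log_div _ h5.ne']
      · congr 1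
        rw [← div_self h5.ne', max_div_div_right h5.le]
      · exact (lt_max_of_lt_left h5).ne'
    rw [e1, intervalIntegral.integral_sub hint hint2, ← D_log_m1]
    unfold mx1
    ring
  rw [h3]
  have h4 : Real.circleAverage (fun z => Real.posLog ‖f z‖) 0 1 =
      Real.circleAverage (fun a => Real.circleAverage (fun z => Real.log ‖f z - a‖) 0 1) 0 1 := h1.symm
  rw [h4]
  linarith

end Pool.Agent.Q188.VG
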