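import Mathlib

/-!
# The Mahler measure of the characteristic polynomial and the growth of volumes

`G` is an inner product, `H ≥ G` and `H ≥ Bᴴ G B`; then the product of the absolute values of the eigenvalues
of `B` outside the unit circle is at most `(det H / det G) ^ (1/2)`.
-/

set_option autoImplicit false
set_option linter.unusedSectionVars false

namespace Pool.Agent.Q188.VG

open Matrix Polynomial
open scoped ComplexOrder

variable {m k : Type} [Fintype m] [DecidableEq m] [Fintype k] [DecidableEq k]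

/-- the Schur complement of the first block -/
noncomputable def sc (M : Matrix (m ⊕ k) (m ⊕ k) ℂ) : Matrix k k ℂ :=
  M.toBlocks₂₂ - M.toBlocks₁₂ᴴ * M.toBlocks₁₁⁻¹ * M.toBlocks₁₂

theorem block_eq (M : Matrix (m ⊕ k) (m ⊕ k) ℂ) (hM : M.IsHermitian) :
    M = fromBlocks M.toBlocks₁₁ M.toBlocks₁₂ M.toBlocks₁₂ᴴ M.toBlocks₂₂ := by
  have h1 : M.toBlocks₂₁ = M.toBlocks₁₂ᴴ := by
    ext i j
    have := congrFun (congrFun hM (Sum.inr i)) (Sum.inl j)
    simp only [toBlocks₂₁, toBlocks₁₂, conjTranspose_apply, of_apply] at this ⊢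
    exact this.symm
  rw [← h1, fromBlocks_toBlocks]

theorem posDef₁₁ (M : Matrix (m ⊕ k) (m ⊕ k) ℂ) (hM : M.PosDef) : M.toBlocks₁₁.PosDef :=
  hM.submatrix (e := Sum.inl) Sum.inl_injective

/-- the quadratic form of `M` is that of the Schur complement plus a nonnegative term -/
theorem qf_ge (M : Matrix (m ⊕ k) (m ⊕ k) ℂ) (hM : M.PosDef) (x : m → ℂ) (y : k → ℂ) :
    star y ⬝ᵥ (sc M *ᵥ y) ≤ star (Sum.elim x y) ⬝ᵥ (M *ᵥ Sum.elim x y) := by
  have hA := posDef₁₁ M hM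
  have : Invertible M.toBlocks₁₁ := hA.isUnit.invertible
  have h := schur_complement_eq₁₁ M.toBlocks₁₂ M.toBlocks₂₂ x y hA.1
  rw [← block_eq M hM.1] at h
  rw [dotProduct_mulVec, dotProduct_mulVec, h]
  refine le_add_of_nonneg_left ?_
  rw [← dotProduct_mulVec]
  exact hA.posSemidef.dotProduct_mulVec_nonneg _

/-- the minimum is attained -/
theorem qf_att (M : Matrix (m ⊕ k) (m ⊕ k) ℂ) (hM : M.PosDef) (y : k → ℂ) :
    ∃ x : m → ℂ, star (Sum.elim x y) ⬝ᵥ (M *ᵥ Sum.elim x y) = star y ⬝ᵥ (sc M *ᵥ y) := by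
  have hA := posDef₁₁ M hM
  have : Invertible M.toBlocks₁₁ := hA.isUnit.invertible
  refine ⟨-((M.toBlocks₁₁⁻¹ * M.toBlocks₁₂) *ᵥ y), ?_⟩
  have h := schur_complement_eq₁₁ M.toBlocks₁₂ M.toBlocks₂₂ (-((M.toBlocks₁₁⁻¹ * M.toBlocks₁₂) *ᵥ y)) y hA.1
  rw [← block_eq M hM.1] at h
  rw [dotProduct_mulVec, dotProduct_mulVec, h, neg_add_cancel, dotProduct_zero, zero_add]
  rfl

theorem sc_herm (M : Matrix (m ⊕ k) (m ⊕ k) ℂ) (hM : M.PosDef) : (sc M).IsHermitian := by
  have hA := posDef₁₁ M hM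
  have h2 : M.toBlocks₂₂.IsHermitian := (hM.submatrix (e := Sum.inr) Sum.inr_injective).1
  unfold sc
  refine h2.sub ?_
  exact isHermitian_conjTranspose_mul_mul _ hA.inv.1

theorem sc_posDef (M : Matrix (m ⊕ k) (m ⊕ k) ℂ) (hM : M.PosDef) : (sc M).PosDef := by
  refine .of_dotProduct_mulVec_pos (sc_herm M hM) fun y hy => ?_
  obtain ⟨x, hx⟩ := qf_att M hM y
  rw [← hx]
  refine hM.dotProduct_mulVec_pos ?_
  intro h
  apply hy
  funext i
  have := congrFun h (Sum.inr i)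
  simpa using this

theorem det_sc (M : Matrix (m ⊕ k) (m ⊕ k) ℂ) (hM : M.PosDef) :
    M.det = M.toBlocks₁₁.det * (sc M).det := by
  have hA := posDef₁₁ M hM
  have : Invertible M.toBlocks₁₁ := hA.isUnit.invertible
  conv_lhs => rw [block_eq M hM.1]
  rw [det_fromBlocks₁₁, invOf_eq_nonsing_inv]
  rfl

theorem sc_mono (G H : Matrix (m ⊕ k) (m ⊕ k) ℂ) (hG : G.PosDef) (hH : H.PosDef)
    (h : (H - G).PosSemidef) : (sc H - sc G).PosSemidef := by
  refine .of_dotProduct_mulVec_nonneg ((sc_herm H hH).sub (sc_herm G hG)) fun y => ?_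
  obtain ⟨x, hx⟩ := qf_att H hH y
  have h1 := qf_ge G hG x y
  have h2 := h.dotProduct_mulVec_nonneg (Sum.elim x y)
  rw [sub_mulVec, dotProduct_sub, sub_nonneg] at h2 ⊢
  rw [← hx]
  exact h1.trans h2

theorem sc_conj (G H B : Matrix (m ⊕ k) (m ⊕ k) ℂ) (hG : G.PosDef) (hH : H.PosDef)
    (hB : B.toBlocks₂₁ = 0) (h : (H - Bᴴ * G * B).PosSemidef) :
    (sc H - B.toBlocks₂₂ᴴ * sc G * B.toBlocks₂₂).PosSemidef := by
  refine .of_dotProduct_mulVec_nonneg ((sc_herm H hH).sub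
    (isHermitian_conjTranspose_mul_mul _ (sc_herm G hG))) fun y => ?_
  obtain ⟨x, hx⟩ := qf_att H hH y
  have h2 := h.dotProduct_mulVec_nonneg (Sum.elim x y)
  rw [sub_mulVec, dotProduct_sub, sub_nonneg] at h2 ⊢
  rw [← hx]
  refine le_trans ?_ h2
  have h3 : B *ᵥ Sum.elim x y = Sum.elim (B.toBlocks₁₁ *ᵥ x + B.toBlocks₁₂ *ᵥ y) (B.toBlocks₂₂ *ᵥ y) := by
    conv_lhs => rw [← fromBlocks_toBlocks B, hB, fromBlocks_mulVec]
    simp
  have e : ∀ {n n' : Type} [Fintype n] [Fintype n'] (C : Matrix n n' ℂ) (D : Matrix n n ℂ) (z : n' → ℂ),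
      star z ⬝ᵥ ((Cᴴ * D * C) *ᵥ z) = star (C *ᵥ z) ⬝ᵥ (D *ᵥ (C *ᵥ z)) := by
    intro n n' _ _ C D z
    rw [star_mulVec, ← dotProduct_mulVec, mulVec_mulVec, mulVec_mulVec, Matrix.mul_assoc]
  rw [e, e, h3]
  exact qf_ge G hG _ _

/-- an eigenvector -/
theorem exists_eigen [Nonempty m] (B : Matrix m m ℂ) : ∃ (l : ℂ) (v : m → ℂ), v ≠ 0 ∧ B *ᵥ v = l • v := by
  have h1 : B.charpoly.degree ≠ 0 := by
    rw [Matrix.charpoly_degree_eq_dim]
    have : 0 < Fintype.card m := Fintype.card_pos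
    exact_mod_cast this.ne'
  obtain ⟨l, hl⟩ := IsAlgClosed.exists_root B.charpoly h1
  have h2 : (Matrix.scalar m l - B).det = 0 := by
    rw [← Matrix.eval_charpoly]
    exact hl
  obtain ⟨v, hv, h3⟩ := Matrix.exists_mulVec_eq_zero_iff.mpr h2
  refine ⟨l, v, hv, ?_⟩
  rw [sub_mulVec, sub_eq_zero] at h3
  rw [← h3, Matrix.scalar_apply, ← Matrix.smul_one_eq_diagonal, smul_mulVec, one_mulVec]

/-- the step of the induction -/
theorem block_step [Unique m] (B G H : Matrix (m ⊕ k) (m ⊕ k) ℂ) (hG : G.PosDef)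
    (h1 : (H - G).PosSemidef) (h2 : (H - Bᴴ * G * B).PosSemidef) (hB : B.toBlocks₂₁ = 0)
    (IH : ∀ (B G H : Matrix k k ℂ), G.PosDef → (H - G).PosSemidef → (H - Bᴴ * G * B).PosSemidef →
      B.charpoly.mahlerMeasure ^ 2 * ‖G.det‖ ≤ ‖H.det‖) :
    B.charpoly.mahlerMeasure ^ 2 * ‖G.det‖ ≤ ‖H.det‖ := by
  have hH : H.PosDef := by
    have := hG.add_posSemidef h1
    rwa [add_sub_cancel] at this
  have h3 := IH B.toBlocks₂₂ (sc G) (sc H) (sc_posDef G hG) (sc_mono G H hG hH h1)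
    (sc_conj G H B hG hH hB h2)
  have h4 : B.charpoly = (X - C (B (Sum.inl default) (Sum.inl default))) * B.toBlocks₂₂.charpoly := by
    conv_lhs => rw [← fromBlocks_toBlocks B, hB, charpoly_fromBlocks_zero₂₁]
    congr 1
    rw [Matrix.charpoly, Matrix.det_unique]
    simp [charmatrix_apply_eq, toBlocks₁₁]
  set b := B (Sum.inl default) (Sum.inl default) with hb
  set g := G (Sum.inl default) (Sum.inl default) with hg
  set h := H (Sum.inl default) (Sum.inl default) with hh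
  have h5 : ‖G.det‖ = ‖g‖ * ‖(sc G).det‖ := by
    rw [det_sc G hG, norm_mul, Matrix.det_unique]
    rfl
  have h6 : ‖H.det‖ = ‖h‖ * ‖(sc H).det‖ := by
    rw [det_sc H hH, norm_mul, Matrix.det_unique]
    rfl
  have g0 : 0 ≤ g := hG.posSemidef.diag_nonneg
  have g1 : g ≤ h := by
    have := h1.diag_nonneg (i := Sum.inl default)
    rwa [Matrix.sub_apply, sub_nonneg] at this
  have h0 : 0 ≤ h := g0.trans g1
  have nr : ∀ z : ℂ, 0 ≤ z → ‖z‖ = z.re := fun z hz => by
    have h7 := Complex.nonneg_iff.mp hz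
    conv_lhs => rw [← Complex.re_add_im z, ← h7.2]
    simp [abs_of_nonneg h7.1]
  have g2 : ‖g‖ ≤ ‖h‖ := by
    rw [nr g g0, nr h h0]
    exact (Complex.le_def.mp g1).1
  have g3 : ‖b‖ ^ 2 * ‖g‖ ≤ ‖h‖ := by
    have h7 := h2.diag_nonneg (i := Sum.inl default)
    rw [Matrix.sub_apply, sub_nonneg] at h7
    have h8 : (Bᴴ * G * B) (Sum.inl default) (Sum.inl default) = ((‖b‖ ^ 2 : ℝ) : ℂ) * g := by
      have h9 : ∀ i : k, B (Sum.inr i) (Sum.inl default) = 0 := fun i =>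
        congrFun (congrFun hB i) default
      rw [Matrix.mul_apply, Fintype.sum_sum_type]
      simp only [h9, mul_zero, Finset.sum_const_zero, add_zero, Finset.univ_unique, Finset.sum_singleton]
      rw [Matrix.mul_apply, Fintype.sum_sum_type]
      simp only [conjTranspose_apply, h9, star_zero, zero_mul, Finset.sum_const_zero, add_zero,
        Finset.univ_unique, Finset.sum_singleton]
      rw [← hb, ← hg, mul_assoc, mul_comm g b, ← mul_assoc]
      congr 1
      rw [Complex.star_def, ← Complex.normSq_eq_conj_mul_self, Complex.normSq_eq_norm_sq]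
    rw [h8] at h7
    rw [nr g g0, nr h h0]
    have := (Complex.le_def.mp h7).1
    rwa [Complex.re_ofReal_mul] at this
  rw [h4, mahlerMeasure_mul, mahlerMeasure_X_sub_C, h5, h6, mul_pow]
  have h7 : (max 1 ‖b‖) ^ 2 * ‖g‖ ≤ ‖h‖ := by
    rcases le_total 1 ‖b‖ with h8 | h8
    · rwa [max_eq_right h8]
    · rwa [max_eq_left h8, one_pow, one_mul]
  calc (max 1 ‖b‖) ^ 2 * B.toBlocks₂₂.charpoly.mahlerMeasure ^ 2 * (‖g‖ * ‖(sc G).det‖)
      = ((max 1 ‖b‖) ^ 2 * ‖g‖) * (B.toBlocks₂₂.charpoly.mahlerMeasure ^ 2 * ‖(sc G).det‖) := by ring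
    _ ≤ ‖h‖ * ‖(sc H).det‖ := mul_le_mul h7 h3 (by positivity) (norm_nonneg _)

/-- **The main inequality.** -/
theorem key (n : ℕ) : ∀ (ι : Type) [Fintype ι] [DecidableEq ι], Fintype.card ι = n →
    ∀ (B G H : Matrix ι ι ℂ), G.PosDef → (H - G).PosSemidef → (H - Bᴴ * G * B).PosSemidef →
      B.charpoly.mahlerMeasure ^ 2 * ‖G.det‖ ≤ ‖H.det‖ := by
  induction n with
  | zero =>
    intro ι _ _ hc B G H hG h1 h2
    have : IsEmpty ι := Fintype.card_eq_zero_iff.mp hc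
    rw [Matrix.charpoly, Matrix.det_isEmpty, Matrix.det_isEmpty, Matrix.det_isEmpty]
    simp
  | succ n IH =>
    intro ι _ _ hc B G H hG h1 h2
    have : Nonempty ι := Fintype.card_pos_iff.mp (by omega)
    obtain ⟨l, v, hv, hBv⟩ := exists_eigen B
    obtain ⟨j, hj⟩ : ∃ j, v j ≠ 0 := by
      by_contra hcon
      push Not at hcon
      exact hv (funext hcon)
    set Q : Matrix ι ι ℂ := updateCol 1 j v with hQ
    have hdet : Q.det = v j := by
      rw [hQ, ← Matrix.cramer_apply, Matrix.cramer_one]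
      rfl
    have hQu : IsUnit Q.det := by
      rw [hdet]
      exact isUnit_iff_ne_zero.mpr hj
    have hQ1 : Q⁻¹ * Q = 1 := Matrix.nonsing_inv_mul _ hQu
    have hQ2 : Q * Q⁻¹ = 1 := Matrix.mul_nonsing_inv _ hQu
    have hQe : Q *ᵥ Pi.single j 1 = v := by
      rw [Matrix.mulVec_single_one]
      funext i
      simp [hQ]
    have hinj : Function.Injective Q.mulVec := Matrix.mulVec_injective_iff_isUnit.mpr
      ((Matrix.isUnit_iff_isUnit_det _).mpr hQu)
    set e : {i // i = j} ⊕ {i // ¬ i = j} ≃ ι := Equiv.sumCompl (fun i => i = j) with he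
    set B' := (Q⁻¹ * B * Q).submatrix e e with hB'
    set G' := (Qᴴ * G * Q).submatrix e e with hG'
    set H' := (Qᴴ * H * Q).submatrix e e with hH'
    have k1 : G'.PosDef := (hG.conjTranspose_mul_mul_same hinj).submatrix e.injective
    have k2 : (H' - G').PosSemidef := by
      have := (h1.conjTranspose_mul_mul_same Q).submatrix e
      rw [Matrix.mul_sub, Matrix.sub_mul] at this
      exact this
    have k3 : (H' - B'ᴴ * G' * B').PosSemidef := by
      have h3 := (h2.conjTranspose_mul_mul_same Q).submatrix e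
      have h4 : Qᴴ * (H - Bᴴ * G * B) * Q = Qᴴ * H * Q - (Q⁻¹ * B * Q)ᴴ * (Qᴴ * G * Q) * (Q⁻¹ * B * Q) := by
        rw [Matrix.mul_sub, Matrix.sub_mul]
        congr 1
        have h5 : (Q⁻¹ * B * Q)ᴴ * (Qᴴ * G * Q) * (Q⁻¹ * B * Q) =
            Qᴴ * Bᴴ * (Q * Q⁻¹)ᴴ * G * (Q * Q⁻¹) * B * Q := by
          simp only [conjTranspose_mul, Matrix.mul_assoc]
        rw [h5, hQ2]
        simp only [conjTranspose_one, Matrix.mul_one, Matrix.mul_assoc]
      rw [h4] at h3
      have h6 : B'ᴴ * G' * B' =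
          ((Q⁻¹ * B * Q)ᴴ * (Qᴴ * G * Q) * (Q⁻¹ * B * Q)).submatrix e e := by
        rw [hB', hG', conjTranspose_submatrix, submatrix_mul_equiv, submatrix_mul_equiv]
      rw [h6]
      exact h3
    have k4 : B'.toBlocks₂₁ = 0 := by
      ext ⟨i, hi⟩ ⟨i', hi'⟩
      subst hi'
      have h3 : (Q⁻¹ * B * Q) *ᵥ Pi.single i' 1 = l • Pi.single i' (1 : ℂ) := by
        rw [← mulVec_mulVec, hQe, ← mulVec_mulVec, hBv, mulVec_smul]
        congr 1
        rw [← hQe, mulVec_mulVec, hQ1, one_mulVec]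
      have h4 := congrFun h3 i
      rw [Matrix.mulVec_single_one] at h4
      simp only [toBlocks₂₁, of_apply, hB', submatrix_apply, he, Equiv.sumCompl_apply_inl,
        Equiv.sumCompl_apply_inr, Matrix.zero_apply]
      rw [Pi.smul_apply, Pi.single_eq_of_ne hi, smul_zero] at h4
      exact h4
    have hcard : Fintype.card {i // ¬ i = j} = n := by
      rw [Fintype.card_subtype_compl, hc, Fintype.card_unique]
      rfl
    have k5 := block_step B' G' H' k1 k2 k3 k4 (IH _ hcard)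
    have k6 : B'.charpoly = B.charpoly := by
      have h3 : B' = Matrix.reindex e.symm e.symm (Q⁻¹ * B * Q) := rfl
      rw [h3, Matrix.charpoly_reindex]
      have := Matrix.charpoly_units_conj' ⟨Q, Q⁻¹, hQ2, hQ1⟩ B
      exact this
    have k7 : ∀ M : Matrix ι ι ℂ, ‖((Qᴴ * M * Q).submatrix e e).det‖ = ‖v j‖ ^ 2 * ‖M.det‖ := by
      intro M
      rw [Matrix.det_submatrix_equiv_self, det_mul, det_mul, det_conjTranspose, hdet, norm_mul, norm_mul,
        norm_star]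
      ring
    rw [k6, hG', hH', k7, k7] at k5
    have h8 : 0 < ‖v j‖ ^ 2 := by positivity
    have h9 : ‖v j‖ ^ 2 * (B.charpoly.mahlerMeasure ^ 2 * ‖G.det‖) ≤ ‖v j‖ ^ 2 * ‖H.det‖ := by linarith
    exact le_of_mul_le_mul_left h9 h8

end Pool.Agent.Q188.VG
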