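import Mathlib
import Pool.Agent.Q188.VG.Key

/-!
# Changing one diagonal entry of a matrix
-/

set_option autoImplicit false
set_option linter.unusedSectionVars false

namespace Pool.Agent.Q188.VG

open Matrix Polynomial
open scoped ComplexOrder

variable {k : Type} [Fintype k] [DecidableEq k]

theorem conj_form (C D : Matrix k k ℂ) (z : k → ℂ) :
    star z ⬝ᵥ ((Cᴴ * D * C) *ᵥ z) = star (C *ᵥ z) ⬝ᵥ (D *ᵥ (C *ᵥ z)) := by
  rw [star_mulVec, ← dotProduct_mulVec, mulVec_mulVec, mulVec_mulVec, Matrix.mul_assoc]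

theorem herm_swap (G : Matrix k k ℂ) (hG : G.IsHermitian) (x y : k → ℂ) :
    star x ⬝ᵥ (G *ᵥ y) = star (star y ⬝ᵥ (G *ᵥ x)) := by
  rw [← star_dotProduct_star, star_star, star_mulVec, hG.eq, ← dotProduct_mulVec]

theorem inv_le (M G A : Matrix k k ℂ) (hM : M.PosDef) (hG : G.PosSemidef)
    (h : (M - Aᴴ * G * A).PosSemidef) (e : k → ℂ) :
    (star ((Aᴴ * G) *ᵥ e) ⬝ᵥ (M⁻¹ *ᵥ ((Aᴴ * G) *ᵥ e))).re ≤ (star e ⬝ᵥ (G *ᵥ e)).re := by
  set w := (Aᴴ * G) *ᵥ e with hw
  set x := M⁻¹ *ᵥ w with hx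
  have hMx : M *ᵥ x = w := by
    rw [hx, mulVec_mulVec, Matrix.mul_nonsing_inv _ ((Matrix.isUnit_iff_isUnit_det _).mp hM.isUnit),
      one_mulVec]
  have s1 : star w ⬝ᵥ x = star x ⬝ᵥ (M *ᵥ x) := by
    conv_lhs => rw [← hMx]
    rw [star_mulVec, hM.1.eq, ← dotProduct_mulVec]
  have s2 : star w ⬝ᵥ x = star e ⬝ᵥ (G *ᵥ (A *ᵥ x)) := by
    rw [hw, star_mulVec, conjTranspose_mul, conjTranspose_conjTranspose, hG.1.eq, ← dotProduct_mulVec,
      ← mulVec_mulVec]
  have h1 := h.dotProduct_mulVec_nonneg x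
  rw [sub_mulVec, dotProduct_sub, sub_nonneg, conj_form] at h1
  have h2 := hG.dotProduct_mulVec_nonneg (A *ᵥ x - e)
  have h3 : star (A *ᵥ x - e) ⬝ᵥ (G *ᵥ (A *ᵥ x - e)) = star (A *ᵥ x) ⬝ᵥ (G *ᵥ (A *ᵥ x)) -
      star (A *ᵥ x) ⬝ᵥ (G *ᵥ e) - star e ⬝ᵥ (G *ᵥ (A *ᵥ x)) + star e ⬝ᵥ (G *ᵥ e) := by
    rw [mulVec_sub, star_sub, sub_dotProduct, dotProduct_sub, dotProduct_sub]
    ring
  rw [h3] at h2
  have h4 := (Complex.le_def.mp h2).1
  have h5 := (Complex.le_def.mp h1).1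
  rw [← s1] at h5
  have h6 : (star (A *ᵥ x) ⬝ᵥ (G *ᵥ e)).re = (star w ⬝ᵥ x).re := by
    rw [s2, herm_swap G hG.1 (A *ᵥ x) e, Complex.star_def, Complex.conj_re]
  have h7 : (star e ⬝ᵥ (G *ᵥ (A *ᵥ x))).re = (star w ⬝ᵥ x).re := by rw [s2]
  simp only [Complex.zero_re, Complex.add_re, Complex.sub_re] at h4
  rw [h6, h7] at h4
  linarith

theorem norm_det_update (M : Matrix k k ℂ) (hM : M.PosDef) (c : ℝ) (hc : 0 ≤ c) (p : k → ℂ) :
    ‖(M + (c : ℂ) • vecMulVec p (star p)).det‖ = ‖M.det‖ * (1 + c * (star p ⬝ᵥ (M⁻¹ *ᵥ p)).re) := by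
  have h1 : (c : ℂ) • vecMulVec p (star p) =
      replicateCol Unit ((c : ℂ) • p) * replicateRow Unit (star p) := by
    rw [← vecMulVec_eq]
    ext i j
    simp [vecMulVec_apply, mul_assoc]
  rw [h1, det_add_replicateCol_mul_replicateRow ((Matrix.isUnit_iff_isUnit_det _).mp hM.isUnit),
    norm_mul]
  congr 1
  rw [Matrix.det_unique]
  have h2 : (1 + replicateRow Unit (star p) * M⁻¹ * replicateCol Unit ((c : ℂ) • p) :
      Matrix Unit Unit ℂ) default default = 1 + (c : ℂ) * (star p ⬝ᵥ (M⁻¹ *ᵥ p)) := by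
    rw [Matrix.add_apply, Matrix.one_apply_eq, Matrix.mul_assoc]
    congr 1
    rw [← Matrix.replicateCol_mulVec, Matrix.replicateRow_mul_replicateCol_apply, mulVec_smul,
      dotProduct_smul, smul_eq_mul]
  rw [h2]
  have h3 := hM.inv.posSemidef.dotProduct_mulVec_nonneg p
  have h4 : star p ⬝ᵥ (M⁻¹ *ᵥ p) = (((star p ⬝ᵥ (M⁻¹ *ᵥ p)).re : ℝ) : ℂ) := by
    have := Complex.nonneg_iff.mp h3
    apply Complex.ext
    · simp
    · simp [← this.2]
  have h5 : 0 ≤ (star p ⬝ᵥ (M⁻¹ *ᵥ p)).re := (Complex.nonneg_iff.mp h3).1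
  conv_lhs => rw [h4]
  rw [← Complex.ofReal_mul, ← Complex.ofReal_one, ← Complex.ofReal_add, Complex.norm_real,
    Real.norm_of_nonneg (by positivity)]

/-- **Changing one diagonal entry.** -/
theorem pert (A G H : Matrix k k ℂ) (L K : ℝ) (hG : G.PosDef) (i : k)
    (hGL : ∀ x : k → ℂ, x i = 1 → (G i i).re ≤ L * (star x ⬝ᵥ (G *ᵥ x)).re)
    (h1 : (H - G).PosSemidef) (h2 : (H - Aᴴ * G * A).PosSemidef) (hK : ‖H.det‖ ≤ K * ‖G.det‖)
    (u : ℂ) (hu : ‖u‖ = 1) :
    (A - u • Matrix.single i i 1).charpoly.mahlerMeasure ^ 2 ≤ 2 * (1 + 2 * L) * K := by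
  set e : k → ℂ := Pi.single i 1 with he
  have hH : H.PosDef := by
    have := hG.add_posSemidef h1
    rwa [add_sub_cancel] at this
  set w := (Aᴴ * G) *ᵥ e with hw
  set γ := (G i i).re with hγ
  have hγc : G i i = (γ : ℂ) := by
    have := Complex.nonneg_iff.mp (hG.posSemidef.diag_nonneg (i := i))
    apply Complex.ext
    · simp [hγ]
    · simp [← this.2]
  have hγ0 : 0 < γ := by
    have := hG.diag_pos (i := i)
    rw [hγc] at this
    exact_mod_cast this
  have hGe : star e ⬝ᵥ (G *ᵥ e) = G i i := by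
    rw [he, Matrix.mulVec_single_one]
    simp [Matrix.col]
  have hGi : IsUnit G.det := (Matrix.isUnit_iff_isUnit_det _).mp hG.isUnit
  set δ := (star e ⬝ᵥ (G⁻¹ *ᵥ e)).re with hδ
  have hδc : star e ⬝ᵥ (G⁻¹ *ᵥ e) = (δ : ℂ) := by
    have := Complex.nonneg_iff.mp (hG.inv.posSemidef.dotProduct_mulVec_nonneg e)
    apply Complex.ext
    · simp [hδ]
    · simp [← this.2]
  have he0 : e ≠ 0 := by
    intro h0
    have := congrFun h0 i
    simp [he] at this
  have hδ0 : 0 < δ := by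
    have := hG.inv.dotProduct_mulVec_pos he0
    rw [hδc] at this
    exact_mod_cast this
  have hGG : G *ᵥ (G⁻¹ *ᵥ e) = e := by
    rw [mulVec_mulVec, Matrix.mul_nonsing_inv _ hGi, one_mulVec]
  have hie : ∀ y : k → ℂ, star e ⬝ᵥ y = y i := by
    intro y
    rw [he, ← Pi.single_star, star_one, single_dotProduct, one_mul]
  have hγδ : γ * δ ≤ L := by
    have h3 := hGL (((1 / δ : ℝ) : ℂ) • (G⁻¹ *ᵥ e)) (by
      rw [Pi.smul_apply, ← hie (G⁻¹ *ᵥ e), hδc, smul_eq_mul]
      have : (δ : ℂ) ≠ 0 := by exact_mod_cast hδ0.ne'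
      push_cast
      field_simp)
    rw [mulVec_smul, hGG, star_smul, smul_dotProduct, dotProduct_smul, smul_eq_mul, smul_eq_mul,
      Complex.star_def, Complex.conj_ofReal] at h3
    have h4 : star (G⁻¹ *ᵥ e) ⬝ᵥ e = (δ : ℂ) := by
      rw [star_mulVec, hG.inv.1.eq, ← dotProduct_mulVec, hδc]
    rw [h4, ← Complex.ofReal_mul, ← Complex.ofReal_mul, Complex.ofReal_re] at h3
    have h5 : 1 / δ * (1 / δ * δ) = 1 / δ := by
      field_simp
    rw [h5] at h3
    have h6 : γ * δ ≤ L * (1 / δ) * δ := mul_le_mul_of_nonneg_right h3 hδ0.le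
    have h7 : L * (1 / δ) * δ = L := by field_simp
    linarith
  have hL : 0 ≤ L := le_trans (by positivity) hγδ
  set M1 := H + ((1 / γ : ℝ) : ℂ) • vecMulVec w (star w) with hM1
  set M2 := M1 + ((2 * γ : ℝ) : ℂ) • vecMulVec e (star e) with hM2
  have vp : ∀ (c : ℝ) (p : k → ℂ), 0 ≤ c → ((c : ℂ) • vecMulVec p (star p)).PosSemidef := by
    intro c p hc
    exact (posSemidef_vecMulVec_self_star p).smul (by exact_mod_cast hc)
  have hM1p : M1.PosDef := hH.add_posSemidef (vp _ _ (by positivity))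
  have b1 : ‖M1.det‖ ≤ ‖H.det‖ * 2 := by
    rw [hM1, norm_det_update H hH _ (by positivity) w]
    refine mul_le_mul_of_nonneg_left ?_ (norm_nonneg _)
    have h3 := inv_le H G A hH hG.posSemidef h2 e
    rw [hGe] at h3
    have h4 : 1 / γ * (star w ⬝ᵥ (H⁻¹ *ᵥ w)).re ≤ 1 / γ * γ :=
      mul_le_mul_of_nonneg_left h3 (by positivity)
    rw [one_div_mul_cancel hγ0.ne'] at h4
    linarith
  have b2 : ‖M2.det‖ ≤ ‖M1.det‖ * (1 + 2 * L) := by
    rw [hM2, norm_det_update M1 hM1p _ (by positivity) e]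
    refine mul_le_mul_of_nonneg_left ?_ (norm_nonneg _)
    have h5 : (M1 - (1 : Matrix k k ℂ)ᴴ * G * 1).PosSemidef := by
      rw [conjTranspose_one, one_mul, mul_one]
      have h6 : M1 - G = (H - G) + ((1 / γ : ℝ) : ℂ) • vecMulVec w (star w) := by
        rw [hM1]; abel
      rw [h6]
      exact h1.add (vp _ _ (by positivity))
    have h3 := inv_le M1 G 1 hM1p hG.posSemidef h5 (G⁻¹ *ᵥ e)
    rw [conjTranspose_one, one_mul, hGG, star_mulVec, hG.inv.1.eq, ← dotProduct_mulVec] at h3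
    have h10 : 0 ≤ (star e ⬝ᵥ (M1⁻¹ *ᵥ e)).re :=
      (Complex.nonneg_iff.mp (hM1p.inv.posSemidef.dotProduct_mulVec_nonneg e)).1
    have h11 : 2 * γ * (star e ⬝ᵥ (M1⁻¹ *ᵥ e)).re ≤ 2 * L := by
      have h12 : 2 * γ * (star e ⬝ᵥ (M1⁻¹ *ᵥ e)).re ≤ 2 * γ * δ :=
        mul_le_mul_of_nonneg_left h3 (by positivity)
      linarith
    linarith
  have c1 : (M2 - G).PosSemidef := by
    have h6 : M2 - G = (H - G) + ((1 / γ : ℝ) : ℂ) • vecMulVec w (star w) +
        ((2 * γ : ℝ) : ℂ) • vecMulVec e (star e) := by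
      rw [hM2, hM1]; abel
    rw [h6]
    exact (h1.add (vp _ _ (by positivity))).add (vp _ _ (by positivity))
  have c2 : (M2 - (A - u • Matrix.single i i 1)ᴴ * G * (A - u • Matrix.single i i 1)).PosSemidef := by
    set p : k → ℂ := w + ((γ : ℂ) * star u) • e with hp
    have hu2 : u * star u = 1 := by
      rw [Complex.star_def, Complex.mul_conj, Complex.normSq_eq_norm_sq, hu]; simp
    have hsing : Matrix.single i i (1 : ℂ) = vecMulVec e (star e) := by
      ext x y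
      rw [vecMulVec_apply, he, ← Pi.single_star, star_one, Matrix.single_apply, Pi.single_apply,
        Pi.single_apply]
      by_cases h3 : i = x <;> by_cases h4 : i = y <;> simp [h3, h4, eq_comm]
    have e1 : Aᴴ * G * vecMulVec e (star e) = vecMulVec w (star e) := by
      rw [mul_vecMulVec]
    have e2 : vecMulVec e (star e) * (G * A) = vecMulVec e (star w) := by
      rw [vecMulVec_mul, hw, star_mulVec, conjTranspose_mul, conjTranspose_conjTranspose, hG.1.eq]
    have e3 : vecMulVec e (star e) * G * vecMulVec e (star e) = (γ : ℂ) • vecMulVec e (star e) := by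
      rw [vecMulVec_mul, vecMulVec_mul_vecMulVec, ← dotProduct_mulVec, hGe, hγc, vecMulVec_smul]
    have e4 : (vecMulVec e (star e))ᴴ = vecMulVec e (star e) := by
      rw [conjTranspose_vecMulVec, star_star]
    have h6 : M2 - (A - u • Matrix.single i i 1)ᴴ * G * (A - u • Matrix.single i i 1) =
        (H - Aᴴ * G * A) + ((1 / γ : ℝ) : ℂ) • vecMulVec p (star p) := by
      have h7 : (A - u • Matrix.single i i 1)ᴴ * G * (A - u • Matrix.single i i 1) =
          Aᴴ * G * A - u • vecMulVec w (star e) - star u • vecMulVec e (star w) +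
            (γ : ℂ) • vecMulVec e (star e) := by
        rw [hsing, conjTranspose_sub, conjTranspose_smul, e4, Matrix.sub_mul, Matrix.sub_mul,
          Matrix.mul_sub, Matrix.mul_sub, Matrix.mul_smul, e1, Matrix.smul_mul, Matrix.smul_mul,
          Matrix.mul_assoc (vecMulVec e (star e)) G A, e2, Matrix.smul_mul, Matrix.mul_smul, e3, smul_smul,
          mul_comm (star u) u, hu2, one_smul]
        abel
      have h8 : vecMulVec p (star p) = vecMulVec w (star w) + ((γ : ℂ) * u) • vecMulVec w (star e) +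
          ((γ : ℂ) * star u) • vecMulVec e (star w) + ((γ : ℂ) * (γ : ℂ)) • vecMulVec e (star e) := by
        rw [hp, star_add, star_smul, add_vecMulVec, vecMulVec_add, vecMulVec_add, vecMulVec_smul,
          smul_vecMulVec, smul_vecMulVec, vecMulVec_smul, smul_smul, star_mul', star_star]
        have h9 : star (γ : ℂ) = (γ : ℂ) := by
          rw [Complex.star_def, Complex.conj_ofReal]
        have h10 : (γ : ℂ) * star u * ((γ : ℂ) * u) = (γ : ℂ) * (γ : ℂ) := by
          calc (γ : ℂ) * star u * ((γ : ℂ) * u) = (γ : ℂ) * (γ : ℂ) * (u * star u) := by ring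
            _ = _ := by rw [hu2, mul_one]
        rw [h9, h10]
        abel
      have hγn : (γ : ℂ) ≠ 0 := by exact_mod_cast hγ0.ne'
      rw [h7, h8, hM2, hM1, smul_add, smul_add, smul_add, smul_smul, smul_smul, smul_smul]
      have h11 : (((1 / γ : ℝ) : ℂ)) * ((γ : ℂ) * u) = u := by
        push_cast; field_simp
      have h12 : (((1 / γ : ℝ) : ℂ)) * ((γ : ℂ) * star u) = star u := by
        push_cast; field_simp
      have h13 : (((1 / γ : ℝ) : ℂ)) * ((γ : ℂ) * (γ : ℂ)) = (γ : ℂ) := by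
        push_cast; field_simp
      rw [h11, h12, h13]
      have h14 : (((2 * γ : ℝ) : ℂ)) • vecMulVec e (star e) =
          (γ : ℂ) • vecMulVec e (star e) + (γ : ℂ) • vecMulVec e (star e) := by
        rw [← add_smul]; congr 1; push_cast; ring
      rw [h14]
      abel
    rw [h6]
    exact h2.add (vp _ _ (by positivity))
  have h3 := key _ k rfl (A - u • Matrix.single i i 1) G M2 hG c1 c2
  have hG0 : 0 < ‖G.det‖ := norm_pos_iff.mpr (by
    have := hG.det_pos
    exact this.ne')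
  have hL1 : 0 ≤ 1 + 2 * L := by linarith
  have h4 : ‖M2.det‖ ≤ 2 * (1 + 2 * L) * K * ‖G.det‖ := by
    calc ‖M2.det‖ ≤ ‖M1.det‖ * (1 + 2 * L) := b2
      _ ≤ (‖H.det‖ * 2) * (1 + 2 * L) := mul_le_mul_of_nonneg_right b1 hL1
      _ ≤ (K * ‖G.det‖ * 2) * (1 + 2 * L) := by
          refine mul_le_mul_of_nonneg_right ?_ hL1
          linarith
      _ = _ := by ring
  exact le_of_mul_le_mul_right (h3.trans h4) hG0

end Pool.Agent.Q188.VG
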