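import Mathlib
import Pool.Agent.Q188.VG.Pert

/-!
# From the growth of volumes to a majorant of `Aᴴ G A`
-/

set_option autoImplicit false
set_option linter.unusedSectionVars false

namespace Pool.Agent.Q188.VG

open Matrix Polynomial
open scoped ComplexOrder

variable {k : Type} [Fintype k] [DecidableEq k]

theorem diag_herm (N : Matrix k k ℂ) (hN : N.IsHermitian) :
    ∃ (U : Matrix k k ℂ) (d : k → ℝ), Uᴴ * U = 1 ∧ U * Uᴴ = 1 ∧ Uᴴ * N * U = diagonal fun i => (d i : ℂ) := by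
  have h := hN.spectral_theorem
  rw [Unitary.conjStarAlgAut_apply] at h
  set U : Matrix k k ℂ := (hN.eigenvectorUnitary : Matrix k k ℂ) with hU
  have h1 : Uᴴ * U = 1 := Unitary.star_mul_self_of_mem hN.eigenvectorUnitary.2
  have h2 : U * Uᴴ = 1 := Unitary.mul_star_self_of_mem hN.eigenvectorUnitary.2
  refine ⟨U, hN.eigenvalues, h1, h2, ?_⟩
  conv_lhs => rw [h]
  have h3 : star U = Uᴴ := rfl
  calc Uᴴ * (U * diagonal (RCLike.ofReal ∘ hN.eigenvalues) * Uᴴ) * U =
        (Uᴴ * U) * diagonal (RCLike.ofReal ∘ hN.eigenvalues) * (Uᴴ * U) := by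
          simp only [Matrix.mul_assoc]
    _ = _ := by rw [h1, Matrix.one_mul, Matrix.mul_one]; rfl

theorem normalise (G : Matrix k k ℂ) (hG : G.PosDef) :
    ∃ V : Matrix k k ℂ, IsUnit V.det ∧ Vᴴ * G * V = 1 := by
  obtain ⟨U, d, h1, h2, h3⟩ := diag_herm G hG.1
  have hUinj : Function.Injective U.mulVec := by
    refine Matrix.mulVec_injective_iff_isUnit.mpr ?_
    exact ⟨⟨U, Uᴴ, h2, h1⟩, rfl⟩
  have hd : ∀ i, 0 < d i := by
    intro i
    have h4 := (hG.conjTranspose_mul_mul_same hUinj).diag_pos (i := i)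
    rw [h3, diagonal_apply_eq] at h4
    exact_mod_cast h4
  set E : Matrix k k ℂ := diagonal fun i => ((1 / Real.sqrt (d i) : ℝ) : ℂ) with hE
  refine ⟨U * E, ?_, ?_⟩
  · rw [Matrix.det_mul]
    refine IsUnit.mul ((Matrix.isUnit_iff_isUnit_det _).mp ⟨⟨U, Uᴴ, h2, h1⟩, rfl⟩) ?_
    rw [hE, det_diagonal]
    refine isUnit_iff_ne_zero.mpr (Finset.prod_ne_zero_iff.mpr fun i _ => ?_)
    have : (1 / Real.sqrt (d i) : ℝ) ≠ 0 := (one_div_pos.mpr (Real.sqrt_pos.mpr (hd i))).ne'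
    exact_mod_cast this
  · have h4 : (U * E)ᴴ * G * (U * E) = Eᴴ * (Uᴴ * G * U) * E := by
      simp only [conjTranspose_mul, Matrix.mul_assoc]
    rw [h4, h3, hE, diagonal_conjTranspose, diagonal_mul_diagonal, diagonal_mul_diagonal]
    rw [← diagonal_one]
    congr 1
    funext i
    have h5 : Real.sqrt (d i) * Real.sqrt (d i) = d i := Real.mul_self_sqrt (hd i).le
    have h6 : Real.sqrt (d i) ≠ 0 := (Real.sqrt_pos.mpr (hd i)).ne'
    have h7 : (1 / Real.sqrt (d i)) * d i * (1 / Real.sqrt (d i)) = 1 := by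
      field_simp
      rw [Real.sq_sqrt (hd i).le]
    simp only [Pi.star_apply, Complex.star_def, Complex.conj_ofReal]
    exact_mod_cast h7

/-- simultaneous diagonalisation -/
theorem simul (G N : Matrix k k ℂ) (hG : G.PosDef) (hN : N.PosSemidef) :
    ∃ (V : Matrix k k ℂ) (d : k → ℝ), IsUnit V.det ∧ Vᴴ * G * V = 1 ∧ (∀ i, 0 ≤ d i) ∧
      Vᴴ * N * V = diagonal fun i => (d i : ℂ) := by
  obtain ⟨V, hV, h1⟩ := normalise G hG
  have hN1 : (Vᴴ * N * V).PosSemidef := hN.conjTranspose_mul_mul_same V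
  obtain ⟨U, d, h2, h3, h4⟩ := diag_herm _ hN1.1
  refine ⟨V * U, d, ?_, ?_, ?_, ?_⟩
  · rw [Matrix.det_mul]
    exact hV.mul ((Matrix.isUnit_iff_isUnit_det _).mp ⟨⟨U, Uᴴ, h3, h2⟩, rfl⟩)
  · calc (V * U)ᴴ * G * (V * U) = Uᴴ * (Vᴴ * G * V) * U := by
          simp only [conjTranspose_mul, Matrix.mul_assoc]
      _ = 1 := by rw [h1, Matrix.mul_one, h2]
  · intro i
    have h5 := (hN1.conjTranspose_mul_mul_same U).diag_nonneg (i := i)
    rw [h4, diagonal_apply_eq] at h5
    exact_mod_cast h5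
  · calc (V * U)ᴴ * N * (V * U) = Uᴴ * (Vᴴ * N * V) * U := by
          simp only [conjTranspose_mul, Matrix.mul_assoc]
      _ = _ := h4

theorem exists_majorant {n : ℕ} (A G : Matrix (Fin n) (Fin n) ℂ) (hG : G.PosDef) (K : ℝ)
    (h : ∀ (k : ℕ) (X : Matrix (Fin n) (Fin k) ℂ),
      ((A * X)ᴴ * G * (A * X)).det.re ≤ K * (Xᴴ * G * X).det.re) :
    ∃ H : Matrix (Fin n) (Fin n) ℂ, (H - G).PosSemidef ∧ (H - Aᴴ * G * A).PosSemidef ∧
      ‖H.det‖ ≤ K * ‖G.det‖ := by
  have hN : (Aᴴ * G * A).PosSemidef := hG.posSemidef.conjTranspose_mul_mul_same A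
  obtain ⟨V, d, hV, h1, hd, h2⟩ := simul G _ hG hN
  have hV1 : V⁻¹ * V = 1 := Matrix.nonsing_inv_mul _ hV
  have hV2 : V * V⁻¹ = 1 := Matrix.mul_nonsing_inv _ hV
  have hW1 : (V⁻¹)ᴴ * Vᴴ = 1 := by rw [← conjTranspose_mul, hV2, conjTranspose_one]
  have back : ∀ M : Matrix (Fin n) (Fin n) ℂ, (V⁻¹)ᴴ * (Vᴴ * M * V) * V⁻¹ = M := by
    intro M
    calc (V⁻¹)ᴴ * (Vᴴ * M * V) * V⁻¹ = ((V⁻¹)ᴴ * Vᴴ) * M * (V * V⁻¹) := by
          simp only [Matrix.mul_assoc]
      _ = M := by rw [hW1, hV2, Matrix.one_mul, Matrix.mul_one]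
  set D : Matrix (Fin n) (Fin n) ℂ := diagonal fun i => ((max 1 (d i) : ℝ) : ℂ) with hD
  set H := (V⁻¹)ᴴ * D * V⁻¹ with hH
  refine ⟨H, ?_, ?_, ?_⟩
  · have h3 : H - G = (V⁻¹)ᴴ * (D - 1) * V⁻¹ := by
      rw [Matrix.mul_sub, Matrix.sub_mul, ← h1, back]
    rw [h3]
    refine PosSemidef.conjTranspose_mul_mul_same ?_ _
    rw [hD, ← diagonal_one, diagonal_sub]
    refine posSemidef_diagonal_iff.mpr fun i => ?_
    rw [sub_nonneg]
    exact_mod_cast le_max_left 1 (d i)
  · have h3 : H - Aᴴ * G * A = (V⁻¹)ᴴ * (D - diagonal fun i => (d i : ℂ)) * V⁻¹ := by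
      rw [Matrix.mul_sub, Matrix.sub_mul, ← h2, back]
    rw [h3]
    refine PosSemidef.conjTranspose_mul_mul_same ?_ _
    rw [hD, diagonal_sub]
    refine posSemidef_diagonal_iff.mpr fun i => ?_
    rw [sub_nonneg]
    exact_mod_cast le_max_right 1 (d i)
  · have hdetG : ‖V.det‖ ^ 2 * ‖G.det‖ = 1 := by
      have h3 := congrArg Matrix.det h1
      rw [det_mul, det_mul, det_conjTranspose, det_one] at h3
      have h4 := congrArg norm h3
      rw [norm_mul, norm_mul, norm_star, norm_one] at h4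
      linarith
    have hV0 : 0 < ‖V.det‖ := norm_pos_iff.mpr hV.ne_zero
    have hDdet : ‖D.det‖ = ∏ i, max 1 (d i) := by
      rw [hD, det_diagonal, norm_prod]
      refine Finset.prod_congr rfl fun i _ => ?_
      rw [Complex.norm_real, Real.norm_of_nonneg (le_trans zero_le_one (le_max_left _ _))]
    have hHdet : ‖V.det‖ ^ 2 * ‖H.det‖ = ∏ i, max 1 (d i) := by
      have h3 : Vᴴ * H * V = D := by
        have hW2 : Vᴴ * (V⁻¹)ᴴ = 1 := by rw [← conjTranspose_mul, hV1, conjTranspose_one]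
        calc Vᴴ * H * V = (Vᴴ * (V⁻¹)ᴴ) * D * (V⁻¹ * V) := by
              rw [hH]; simp only [Matrix.mul_assoc]
          _ = D := by rw [hW2, hV1, Matrix.one_mul, Matrix.mul_one]
      have h4 : ‖(Vᴴ * H * V).det‖ = ‖D.det‖ := by rw [h3]
      rw [det_mul, det_mul, det_conjTranspose, norm_mul, norm_mul, norm_star, hDdet] at h4
      linarith
    -- the expanding directions
    set J : Finset (Fin n) := Finset.univ.filter fun i => 1 < d i with hJ
    let f : Fin J.card ↪o Fin n := J.orderEmbOfFin rfl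
    set X : Matrix (Fin n) (Fin J.card) ℂ := V.submatrix id f with hX
    have sub1 : ∀ M : Matrix (Fin n) (Fin n) ℂ, Xᴴ * M * X = (Vᴴ * M * V).submatrix f f := by
      intro M
      rw [hX, conjTranspose_submatrix]
      ext i j
      simp [Matrix.mul_apply]
    have e1 : (Xᴴ * G * X).det = 1 := by
      rw [sub1, h1]
      have : (1 : Matrix (Fin n) (Fin n) ℂ).submatrix f f = 1 := by
        ext i j
        simp [Matrix.one_apply]
      rw [this, det_one]
    have e2 : ((A * X)ᴴ * G * (A * X)).det = ((∏ i, max 1 (d i) : ℝ) : ℂ) := by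
      have e3 : (A * X)ᴴ * G * (A * X) = Xᴴ * (Aᴴ * G * A) * X := by
        simp only [conjTranspose_mul, Matrix.mul_assoc]
      rw [e3, sub1, h2]
      have e4 : (diagonal fun i => (d i : ℂ)).submatrix f f = diagonal fun j => ((d (f j) : ℝ) : ℂ) := by
        ext i j
        by_cases hij : i = j
        · subst hij; simp
        · simp [hij]
      rw [e4, det_diagonal]
      have e5 : ∏ j : Fin J.card, ((d (f j) : ℝ) : ℂ) = ∏ i ∈ J, ((d i : ℝ) : ℂ) := by
        have e6 : J = Finset.univ.map f.toEmbedding := by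
          ext x
          have := Finset.range_orderEmbOfFin J rfl
          simp only [Finset.mem_map, Finset.mem_univ, true_and]
          have e7 : x ∈ Set.range f ↔ x ∈ (J : Set (Fin n)) := by rw [this]
          rw [← Finset.mem_coe, ← e7]
          rfl
        conv_rhs => rw [e6]
        rw [Finset.prod_map]
        rfl
      rw [e5]
      have e8 : ∏ i, max 1 (d i) = ∏ i ∈ J, d i := by
        rw [hJ, Finset.prod_filter]
        refine Finset.prod_congr rfl fun i _ => ?_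
        by_cases hi : 1 < d i
        · rw [if_pos hi, max_eq_right hi.le]
        · rw [if_neg hi, max_eq_left (not_lt.mp hi)]
      rw [e8]
      push_cast
      rfl
    have e9 := h _ X
    rw [e1, e2, Complex.ofReal_re, Complex.one_re, mul_one] at e9
    have e10 : ‖V.det‖ ^ 2 * ‖H.det‖ ≤ ‖V.det‖ ^ 2 * (K * ‖G.det‖) := by
      calc ‖V.det‖ ^ 2 * ‖H.det‖ = ∏ i, max 1 (d i) := hHdet
        _ ≤ K := e9
        _ = K * (‖V.det‖ ^ 2 * ‖G.det‖) := by rw [hdetG, mul_one]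
        _ = _ := by ring
    exact le_of_mul_le_mul_left e10 (by positivity)

end Pool.Agent.Q188.VG
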