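import Mathlib
import Pool.Agent.Q188.VG.Vol
import Pool.Agent.Q188.VG.Jen
import Pool.Agent.Y820.LB.Adapt2
import Pool.Agent.Y820.LB.Avg

/-!
# Lehmer's problem for integer matrices with bounded growth of volumes
-/

set_option autoImplicit false

namespace Pool.Agent.Q188.VG

open Matrix Polynomial MeasureTheory Filter
open scoped ComplexOrder
open Pool.Agent.H261R2.CM (toC ez ev1 m1 mx1 D_circleAverage D_norm_ez mx1_intervalIntegrable
  D_intervalIntegrable_log D_ae_ne D_log_m1 D_toC_ne gap_one)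
open Pool.Agent.W242.IM (ae_eval_ne)
open Pool.Agent.Y820.LB

/-- the pair and its coprime parts -/
theorem reduce' (P Q : ℤ[X]) (hP : P ≠ 0) (hQ : Q ≠ 0) (K : ℝ) (hK : mx1 P Q ≤ K) :
    ∃ A B d : ℤ[X], P = d * A ∧ Q = d * B ∧ d ≠ 0 ∧ A ≠ 0 ∧ B ≠ 0 ∧ IsRelPrime A B ∧
      m1 P = m1 d * m1 A ∧ mx1 A B ≤ K := by
  obtain ⟨A, B, d, hAB, hA, hB⟩ := UniqueFactorizationMonoid.exists_reduced_factors P hP Q
  have hd0 : d ≠ 0 := by
    rintro rfl
    exact hP (by rw [← hA, zero_mul])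
  have hA0 : A ≠ 0 := by
    rintro rfl
    exact hP (by rw [← hA, mul_zero])
  have hB0 : B ≠ 0 := by
    rintro rfl
    exact hQ (by rw [← hB, mul_zero])
  refine ⟨A, B, d, hA.symm, hB.symm, hd0, hA0, hB0, hAB, by rw [← hA, m1_mul], ?_⟩
  have h1 : mx1 P Q = Real.log (m1 d) + mx1 A B := by
    unfold mx1
    rw [D_log_m1, ← intervalIntegral.integral_add (D_intervalIntegrable_log d)
      (mx1_intervalIntegrable A B hA0)]
    refine intervalIntegral.integral_congr_ae ?_
    filter_upwards [D_ae_ne d hd0, D_ae_ne A hA0] with t h2 h3 _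
    have h4 : ∀ C D : ℤ[X], ev1 (C * D) t = ev1 C t * ev1 D t := by
      intro C D
      simp [ev1, toC, Polynomial.map_mul]
    rw [← hA, ← hB, h4, h4, norm_mul, norm_mul, ← mul_max_of_nonneg _ _ (norm_nonneg _),
      Real.log_mul (norm_ne_zero_iff.mpr h2)]
    exact (lt_max_of_lt_left (norm_pos_iff.mpr h3)).ne'
  have h2 : 0 ≤ Real.log (m1 d) := Real.log_nonneg (one_le_m1 hd0)
  linarith

theorem pair_gap' (K : ℝ) : ∃ c : ℝ, 1 < c ∧ c ≤ 2 ∧ ∀ (P Q : ℤ[X]), P ≠ 0 → mx1 P Q ≤ K →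
    ∀ (z : ℂ) (r : ℕ), 1 < ‖z‖ → (X - C z) ^ r ∣ toC P → ¬ (X - C z) ^ r ∣ toC Q → c ≤ m1 P := by
  obtain ⟨c, hc, h⟩ := gap_one K
  refine ⟨min 2 c, lt_min (by norm_num) hc, min_le_left _ _, fun P Q hP hK z r hz1 hPr hQr => ?_⟩
  have hQ : Q ≠ 0 := by
    rintro rfl
    apply hQr
    simp [toC]
  obtain ⟨A, B, d, h1, h2, h3, h4, h5, h6, h7, h8⟩ := reduce' P Q hP hQ K hK
  have hA0 : (toC A).eval z = 0 := by
    by_contra h9
    apply hQr
    have h11 : (X - C z) ^ r ∣ toC d * toC A := by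
      rw [← toC_mul, ← h1]
      exact hPr
    have h13 : IsCoprime ((X - C z) ^ r) (toC A) := by
      refine IsCoprime.pow_left ?_
      exact (EuclideanDomain.dvd_or_coprime _ _ (irreducible_X_sub_C z)).resolve_left fun h14 =>
        h9 (dvd_iff_isRoot.mp h14)
    rw [h2, toC_mul]
    exact (h13.dvd_of_dvd_mul_right h11).mul_right _
  have h9 := m1_gt_of_root A h4 z hA0 hz1
  rcases h A B h4 h5 h6 h8 with h10 | h10
  · exact absurd h10 h9.ne'
  · rw [h7]
    have := min_le_right 2 c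
    nlinarith [one_le_m1 h3]

variable {n : ℕ}

/-- changing a diagonal entry -/
theorem det_add_single (M : Matrix (Fin n) (Fin n) ℂ) (i : Fin n) (u : ℂ) :
    (M + u • Matrix.single i i 1).det = M.det + u * M.adjugate i i := by
  have h1 : M + u • Matrix.single i i 1 = M.updateRow i (M i + u • Pi.single i 1) := by
    ext a b
    rw [Matrix.add_apply, Matrix.smul_apply, Matrix.single_apply, Matrix.updateRow_apply]
    by_cases ha : a = i
    · subst ha
      by_cases hb : a = b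
      · subst hb
        simp
      · simp [hb, Ne.symm hb]
    · simp [ha, Ne.symm ha]
  rw [h1, det_updateRow_add, det_updateRow_smul, updateRow_eq_self, adjugate_apply]

theorem pencil_charpoly (A : Matrix (Fin n) (Fin n) ℤ) (i : Fin n) (u : ℂ) :
    toC A.charpoly + C u * toC (minor X 0 A i) =
      (A.map (Int.castRingHom ℂ) - u • Matrix.single i i 1).charpoly := by
  refine Polynomial.funext fun z => ?_
  have hX : (toC X) = X := by simp [toC]
  have h4 : (toC A.charpoly).eval z =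
      (z • (1 : Matrix (Fin n) (Fin n) ℂ) - A.map (Int.castRingHom ℂ)).det := by
    have h4 := det_eval' X 0 A z
    rw [pencil_one, hX, eval_X, pow_zero, one_smul] at h4
    exact h4
  rw [eval_add, eval_mul, eval_C, h4, minor_eval', hX, eval_X, pow_zero, one_smul, Matrix.eval_charpoly,
    ← det_add_single]
  congr 1
  rw [Matrix.scalar_apply, ← Matrix.smul_one_eq_diagonal]
  abel

/-- **The general theorem**: with a majorant, and with one index or all of them. -/
theorem gap_of_majorant (L K : ℝ) : ∃ c : ℝ, 1 < c ∧ ∀ (n : ℕ) (A : Matrix (Fin n) (Fin n) ℤ)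
    (G H : Matrix (Fin n) (Fin n) ℂ), G.PosDef → (H - G).PosSemidef →
    (H - (A.map (Int.castRingHom ℂ))ᴴ * G * (A.map (Int.castRingHom ℂ))).PosSemidef →
    ‖H.det‖ ≤ K * ‖G.det‖ →
    (∀ i, (∀ x : Fin n → ℂ, x i = 1 → (G i i).re ≤ L * (star x ⬝ᵥ (G *ᵥ x)).re) →
      ∀ (z : ℂ) (r : ℕ), 1 < ‖z‖ → (X - C z) ^ r ∣ toC A.charpoly →
        ¬ (X - C z) ^ r ∣ toC (minor X 0 A i) → c ≤ m1 A.charpoly) ∧ c ≤ 2 := by
  obtain ⟨c, hc, hc2, hgap⟩ := pair_gap' (Real.log (max 1 (2 * (1 + 2 * L) * K)) / 2)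
  refine ⟨c, hc, fun n A G H hG h3 h4 h5 => ⟨fun i hi z r hz1 h7 h8 => ?_, hc2⟩⟩
  have hmon := Matrix.charpoly_monic A
  refine hgap A.charpoly (minor X 0 A i) hmon.ne_zero ?_ z r hz1 h7 h8
  refine mx1_le_of_pencil _ _ hmon.ne_zero _ ?_ ?_
  · intro u _
    rw [pencil_charpoly]
    exact (Matrix.charpoly_monic _).ne_zero
  · intro u hu
    rw [pencil_charpoly]
    set A' := A.map (Int.castRingHom ℂ) - u • Matrix.single i i 1 with hA'
    have h9 := pert (A.map (Int.castRingHom ℂ)) G H L K hG i hi h3 h4 h5 u hu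
    have hpos : 0 < A'.charpoly.mahlerMeasure :=
      mahlerMeasure_pos_of_ne_zero (Matrix.charpoly_monic _).ne_zero
    have h10 : 2 * Real.log A'.charpoly.mahlerMeasure ≤ Real.log (max 1 (2 * (1 + 2 * L) * K)) := by
      have : 2 * Real.log A'.charpoly.mahlerMeasure = Real.log (A'.charpoly.mahlerMeasure ^ 2) := by
        rw [Real.log_pow]; norm_num
      rw [this]
      exact Real.log_le_log (by positivity) (h9.trans (le_max_right _ _))
    linarith

/-- The square of the `k`-dimensional volume, with respect to the inner product `G`, of the parallelepiped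
spanned by the columns of `X`. -/
def sqVolume {n k : ℕ} (G : Matrix (Fin n) (Fin n) ℂ) (X : Matrix (Fin n) (Fin k) ℂ) : ℝ :=
  (Xᴴ * G * X).det.re

theorem minor_irr (A : Matrix (Fin n) (Fin n) ℤ) (hirr : Irreducible A.charpoly) (i : Fin n) (z : ℂ)
    (hz : (toC A.charpoly).eval z = 0) : ¬ (X - C z) ^ 1 ∣ toC (minor X 0 A i) := by
  rw [pow_one]
  intro h
  refine no_common_root A.charpoly (minor X 0 A i) (Matrix.charpoly_monic A) hirr (minor_one A i).1 ?_ z hz
    (dvd_iff_isRoot.mp h)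
  rw [Matrix.charpoly_natDegree_eq_dim, Fintype.card_fin]
  exact (minor_one A i).2

/-- The coordinate vector `e i` is transversal to the span of the other coordinate vectors: its length (in
the inner product `G`) is at most `L ^ (1/2)` times its distance from this span. -/
def Transversal (L : ℝ) {n : ℕ} (G : Matrix (Fin n) (Fin n) ℂ) (i : Fin n) : Prop :=
  ∀ x : Fin n → ℂ, x i = 1 → (G i i).re ≤ L * (star x ⬝ᵥ (G *ᵥ x)).re

theorem volume_gap (L K : ℝ) : ∃ c : ℝ, 1 < c ∧ ∀ (n : ℕ) (A : Matrix (Fin n) (Fin n) ℤ)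
    (G : Matrix (Fin n) (Fin n) ℂ), G.PosDef →
    (∀ (k : ℕ) (X : Matrix (Fin n) (Fin k) ℂ),
      sqVolume G (A.map (Int.castRingHom ℂ) * X) ≤ K * sqVolume G X) →
    ((∀ i, Transversal L G i) ∨ (Irreducible A.charpoly ∧ ∃ i, Transversal L G i)) →
    m1 A.charpoly = 1 ∨ c ≤ m1 A.charpoly := by
  obtain ⟨c, hc, h⟩ := gap_of_majorant L K
  refine ⟨c, hc, fun n A G hG hV hT => ?_⟩
  obtain ⟨H, h1, h2, h3⟩ := exists_majorant (A.map (Int.castRingHom ℂ)) G hG K hV
  obtain ⟨h4, hc2⟩ := h n A G H hG h1 h2 h3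
  by_cases hM : m1 A.charpoly = 1
  · exact Or.inl hM
  right
  have hmon := Matrix.charpoly_monic A
  rcases m1_cases _ hmon.ne_zero hM with h6 | ⟨z, hz, hz1⟩
  · exact hc2.trans h6
  rcases hT with hT | ⟨hirr, i, hi⟩
  · obtain ⟨i, r, h7, h8⟩ := exists_minor_one A z hz
    exact h4 i (hT i) z r hz1 h7 h8
  · refine h4 i hi z 1 hz1 ?_ (minor_irr A hirr i z hz)
    rw [pow_one]
    exact dvd_iff_isRoot.mpr hz

end Pool.Agent.Q188.VG
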